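import Mathlib
import Pool.Agent.H879.Neg.Segre

set_option autoImplicit false

/-!
# Counterexamples to Segre's conjecture are bounded in terms of their tenth largest multiplicity

Let `L` be the linear system of the plane curves of degree `d` with multiplicities at least `w i` at
`n ≥ 4` general points. `NineAbove μ w`: at most nine of the multiplicities `w i` are larger than `μ`, so
that the tenth largest multiplicity is at most `μ`; the NINE largest ones are arbitrary, and so are the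
degree and the number of the points.

Suppose that `L` is special and that some member of `L` (so the general member) is reduced, or only that
`L` meets every `(-1)`-curve in at least `-1`. Then:

(1) For every `μ` such that at most nine of the `w i` are larger than `μ`:
`dim L < 10 ^ 32 (μ + 1) ^ 15` and `dim L - virtdim L < 10 ^ 39 (μ + 1) ^ 16`. So Segre's conjecture holds for
all systems whose dimension or superabundance is at least these bounds.

(2) After the removal of disjoint `(-1)`-curves, each taken once, and finitely many quadratic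
transformations, `L` becomes a special system `(d'; w')` of the same dimension and virtual dimension,
`d' ≤ d`, which is standard (`w' i + w' j + w' l ≤ d'`) and not larger (for every `μ` at most as many of the
`w' i` as of the `w i` are larger than `μ`), and for every `μ` such that at most nine of the `w' i` are larger
than `μ`: `d' < 10 ^ 31 (μ + 1) ^ 14`; the nine large multiplicities nearly exhaust the degree,
`d' ^ 2 - ∑_I (w' i) ^ 2 < 6 * 10 ^ 7 (μ + 1) ^ 2 (d' + μ + 2)`; and the degree and the positive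
multiplicities `w' i` belong to a finite set `S μ` which does not depend on the number of the points.

(3) For every set `I` of at most nine indices the virtual dimension of
`(d' + 3) H - ∑_{w' i ≥ 2} (w' i + 1) E_i` is negative, or
`3 (w' i + 1) ^ 2 > 7 (d' ^ 2 - ∑_{w' j ≥ 2} (w' j) ^ 2)` for some `i ∉ I` with `w' i ≥ 2`.

(4) `(d'; w')` has no `Margin`: at no scale `μ` do the multiplicities larger than `μ` leave room in the
positive cone, up to a bounded change of the degree and a seventh of the square of the tenth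
multiplicity.
-/

namespace Pool.Agent.Results.MP_cfebfb_ag.BoundedCounterexamples

open MvPolynomial Pool.Agent.TH167.SHDefs

/-- The property holds for all `n`-tuples of points outside some hypersurface. -/
def ForGeneral {n : ℕ} (p : (Fin n → Fin 2 → ℂ) → Prop) : Prop :=
  ∃ F : MvPolynomial (Fin n × Fin 2) ℂ, F ≠ 0 ∧ ∀ P : Fin n → Fin 2 → ℂ,
    eval (fun ij : Fin n × Fin 2 => P ij.1 ij.2) F ≠ 0 → p P

/-- The number of the multiplicities larger than `μ`. -/
def above {n : ℕ} (w : Fin n → ℕ) (μ : ℕ) : ℕ := (Finset.univ.filter fun i => μ < w i).card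

/-- The degree is at least the sum of any three multiplicities. -/
def Standard {n : ℕ} (d : ℕ) (w : Fin n → ℕ) : Prop :=
  ∀ i j l : Fin n, i ≠ j → i ≠ l → j ≠ l → w i + w j + w l ≤ d

/-- At most nine of the multiplicities are larger than `b`. -/
def NineAbove {n : ℕ} (b : ℕ) (w : Fin n → ℕ) : Prop :=
  (Finset.univ.filter fun i => b < w i).card ≤ 9

/-- The degree and the multiset of the positive multiplicities. -/
def type {n : ℕ} (d : ℕ) (w : Fin n → ℕ) : ℕ × Multiset ℕ :=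
  (d, (Finset.univ.val.map w).filter (fun x => x ≠ 0))

/-- The multiplicities larger than `μ` (the others are replaced by zero). -/
def large {n : ℕ} (w : Fin n → ℕ) (μ : ℕ) : Fin n → ℕ := fun i => if μ < w i then w i else 0

/-- The self-intersection of the class `D H - ∑ v i E i`. -/
def self {n : ℕ} (D : ℕ) (v : Fin n → ℕ) : ℝ := (D : ℝ) ^ 2 - ∑ i, (v i : ℝ) ^ 2

/-- The sum of the squares of the `v j < v i` with `j ∉ S`. -/
noncomputable def below {n : ℕ} (S : Finset (Fin n)) (v : Fin n → ℕ) (i : Fin n) : ℝ :=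
  ∑ j, if j ∉ S ∧ v j < v i then (v j : ℝ) ^ 2 else 0

/-- The sum of the squares of the `v j ≥ v i` with `j ∉ S`. -/
noncomputable def atLeast {n : ℕ} (S : Finset (Fin n)) (v : Fin n → ℕ) (i : Fin n) : ℝ :=
  ∑ j, if j ∉ S ∧ v i ≤ v j then (v j : ℝ) ^ 2 else 0

/-- The condition on the multiplicities `v i` outside of a set `S` of at most nine indices. -/
def Tail {n : ℕ} (S : Finset (Fin n)) (D : ℕ) (v : Fin n → ℕ) : Prop :=
  S.card ≤ 9 ∧ ∀ i, i ∉ S → (v i : ℝ) ^ 2 ≤ 7 * self D v ∨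
    (v i : ℝ) ^ 2 ≤ 4 * (self D v + below S v i) ∨
    (S.card = 9 ∧ 2 * (v i : ℝ) * atLeast S v i ≤ D * (self D v + below S v i))

/-- The multiplicities larger than `μ` leave a margin `T`. -/
def Margin {n : ℕ} (d : ℕ) (w : Fin n → ℕ) : Prop :=
  ∃ (μ T D : ℕ) (S : Finset (Fin n)), d = D + T ∧ 2 ^ 43 * (μ + 1) ^ 11 ≤ T ∧
    2 ^ 14 * (μ + 1) ^ 3 * ∑ i, large w μ i ≤ T * D ∧
    Standard D (large w μ) ∧ ∑ i, large w μ i ^ 2 ≤ D ^ 2 ∧ Tail S D (large w μ)

theorem tail_iff {n : ℕ} {S : Finset (Fin n)} {D : ℕ} {v : Fin n → ℕ} (h : Tail S D v) :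
    H879.RV.Tail S (D : ℝ) (fun i => (v i : ℝ)) := by
  refine ⟨h.1, fun i hi => ?_⟩
  have e1 : below S v i = Pool.Agent.K4H28.TC.below S (fun i => (v i : ℝ)) i := by
    unfold below Pool.Agent.K4H28.TC.below
    refine Finset.sum_congr rfl fun j _ => ?_
    by_cases hj : j ∉ S ∧ v j < v i
    · have h2 : (v j : ℝ) < v i := by exact_mod_cast hj.2
      rw [if_pos hj, if_pos ⟨hj.1, h2⟩]
    · have h2 : ¬ (j ∉ S ∧ (v j : ℝ) < v i) := fun h' => hj ⟨h'.1, by
        have h3 := h'.2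
        exact_mod_cast h3⟩
      rw [if_neg hj, if_neg h2]
  have e2 : atLeast S v i = Pool.Agent.K4H28.TC.above S (fun i => (v i : ℝ)) i := by
    unfold atLeast Pool.Agent.K4H28.TC.above
    refine Finset.sum_congr rfl fun j _ => ?_
    by_cases hj : j ∉ S ∧ v i ≤ v j
    · have h2 : (v i : ℝ) ≤ v j := by exact_mod_cast hj.2
      rw [if_pos hj, if_pos ⟨hj.1, h2⟩]
    · have h2 : ¬ (j ∉ S ∧ (v i : ℝ) ≤ v j) := fun h' => hj ⟨h'.1, by
        have h3 := h'.2
        exact_mod_cast h3⟩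
      rw [if_neg hj, if_neg h2]
  have h1 := h.2 i hi
  rw [e1, e2] at h1
  exact h1

theorem margin_iff {n d : ℕ} {w : Fin n → ℕ} (h : Margin d w) : H879.RV.Margin d w := by
  obtain ⟨μ, T, D, S, hd, hT1, hT2, hstd, hD0, hS⟩ := h
  have e43 : (2 : ℕ) ^ 43 = 8796093022208 := by norm_num
  have e14 : (2 : ℕ) ^ 14 = 16384 := by norm_num
  rw [e43] at hT1
  rw [e14] at hT2
  exact ⟨μ, T, D, S, hd, hT1, hT2, hstd, hD0, tail_iff hS⟩

/-- Some member of the linear system is reduced, or the system meets every `(-1)`-curve in at least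
`-1`. -/
def NoMultipleCurve {n : ℕ} (P : Fin n → Fin 2 → ℂ) (d : ℕ) (w : Fin n → ℕ) : Prop :=
  (∃ f ∈ sys P d w, Squarefree f) ∨ ∀ (G : MvPolynomial (Fin 3) ℂ) (e : ℕ) (u : Fin n → ℕ),
    MinusOne P G e u → -1 ≤ inter d w e u

/-- The numerical estimates. -/
theorem numeric {V x h : ℤ} {d b m : ℕ}
    (h1 : d < 10000000000000000000000000000000 * (b + 1) ^ 14)
    (h2 : V < 60000000 * (((b : ℤ) + 1) ^ 2 * (d + b + 2))) (h3 : x ≤ V + 2 * (b : ℤ) ^ 2)
    (h4 : m ≤ (d + b) * b) (h5 : 2 * h = 2 * (m : ℤ) + x - 2) :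
    (m : ℤ) < 10 ^ 32 * ((b : ℤ) + 1) ^ 15 ∧ h < 10 ^ 39 * ((b : ℤ) + 1) ^ 16 := by
  obtain ⟨y, hy⟩ : ∃ y : ℤ, y = (b : ℤ) + 1 := ⟨_, rfl⟩
  have hb : (b : ℤ) = y - 1 := by omega
  have hy1 : 1 ≤ y := by omega
  have h1' : (d : ℤ) < 10000000000000000000000000000000 * y ^ 14 := by
    rw [hy]
    exact_mod_cast h1
  have y2 : y ≤ y ^ 2 := le_self_pow₀ hy1 (by norm_num)
  have y14 : 1 ≤ y ^ 14 := one_le_pow₀ hy1
  have p1 : y ≤ y ^ 14 := le_self_pow₀ hy1 (by norm_num)
  obtain ⟨D, hD⟩ : ∃ D : ℤ, D = (d : ℤ) + b + 2 := ⟨_, rfl⟩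
  have hD0 : (d : ℤ) + b ≤ D := by omega
  have hD1 : 2 ≤ D := by omega
  have hD2 : D ≤ 10000000000000000000000000000003 * y ^ 14 := by
    rw [hD, hb]
    linarith
  have h6 : y ^ 2 * D ≤ y ^ 2 * (10000000000000000000000000000003 * y ^ 14) :=
    mul_le_mul_of_nonneg_left hD2 (by linarith)
  have e1 : y ^ 2 * (10000000000000000000000000000003 * y ^ 14) =
      10000000000000000000000000000003 * y ^ 16 := by ring
  have h8 : (m : ℤ) ≤ ((d : ℤ) + b) * b := by exact_mod_cast h4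
  have h7 : (m : ℤ) ≤ y ^ 2 * D := by
    have h9 : ((d : ℤ) + b) * b ≤ D * y ^ 2 :=
      mul_le_mul hD0 (by linarith) (by omega) (by omega)
    linarith
  have h10 : 2 * (b : ℤ) ^ 2 ≤ y ^ 2 * D := by
    have h11 : y ^ 2 * 2 ≤ y ^ 2 * D := mul_le_mul_of_nonneg_left hD1 (by linarith)
    have h12 : (b : ℤ) ^ 2 ≤ y ^ 2 := pow_le_pow_left₀ (by omega) (by omega) 2
    linarith
  have h13 : (m : ℤ) < 10 ^ 32 * y ^ 15 := by
    have h14 : ((d : ℤ) + b) * b ≤ D * y := mul_le_mul hD0 (by omega) (by omega) (by omega)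
    have h15 : D * y ≤ 10000000000000000000000000000003 * y ^ 14 * y :=
      mul_le_mul_of_nonneg_right hD2 (by omega)
    have e2 : 10000000000000000000000000000003 * y ^ 14 * y =
        10000000000000000000000000000003 * y ^ 15 := by ring
    have p15 : 1 ≤ y ^ 15 := one_le_pow₀ hy1
    rw [e2] at h15
    norm_num
    linarith
  rw [← hy] at h2 ⊢
  rw [← hD] at h2
  rw [e1] at h6
  have p16 : 1 ≤ y ^ 16 := one_le_pow₀ hy1
  refine ⟨h13, ?_⟩
  norm_num
  linarith

open Pool.Agent.TH167 in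
/-- Counterexamples to Segre's conjecture are bounded by their tenth multiplicity. -/
theorem result : ∃ S : ℕ → Finset (ℕ × Multiset ℕ), ∀ n : ℕ, 4 ≤ n →
    ∀ (d : ℕ) (w : Fin n → ℕ), ForGeneral fun P => Special P d w → NoMultipleCurve P d w →
      -- (1)
      (∀ μ : ℕ, NineAbove μ w → dimL P d w < 10 ^ 32 * ((μ : ℤ) + 1) ^ 15 ∧
        dimL P d w - virtdim d w < 10 ^ 39 * ((μ : ℤ) + 1) ^ 16) ∧
      -- (2)
      ∃ (d'' : ℕ) (w'' : Fin n → ℕ) (k : ℕ) (G : Fin k → MvPolynomial (Fin 3) ℂ)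
        (e : Fin k → ℕ) (u : Fin k → Fin n → ℕ) (d' : ℕ) (w' : Fin n → ℕ),
        Decomp P d w d'' w'' G e u (fun _ => 1) ∧
        Relation.ReflTransGen Quadratic (d'', w'') (d', w') ∧ Standard d' w' ∧
        Special P d' w' ∧ dimL P d' w' = dimL P d w ∧ virtdim d' w' = virtdim d w ∧ d' ≤ d ∧
        (∀ μ, above w' μ ≤ above w μ) ∧
        (∀ μ : ℕ, NineAbove μ w' → d' < 10 ^ 31 * (μ + 1) ^ 14 ∧ type d' w' ∈ S μ ∧
          ∀ I : Finset (Fin n), I.card ≤ 9 → (∀ i, i ∉ I → w' i ≤ μ) →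
            (d' : ℤ) ^ 2 - ∑ i ∈ I, (w' i : ℤ) ^ 2 <
              6 * 10 ^ 7 * ((μ : ℤ) + 1) ^ 2 * (d' + μ + 2)) ∧
        -- (3)
        (∀ I : Finset (Fin n), I.card ≤ 9 →
          (d' + 3) * (d' + 6) < ∑ i, (if 2 ≤ w' i then (w' i + 1) * (w' i + 2) else 0) ∨
          ∃ i, i ∉ I ∧ 2 ≤ w' i ∧
            7 * d' ^ 2 < 3 * (w' i + 1) ^ 2 + 7 * ∑ j, (if 2 ≤ w' j then w' j ^ 2 else 0)) ∧
        -- (4)
        ¬ Margin d' w' := by
  refine ⟨fun b => (H879.Star.finite_rem b).toFinset, fun n hn d w => ?_⟩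
  obtain ⟨F, hF, hF'⟩ := H879.Neg.segre_gen hn d w
  refine ⟨F, hF, fun P hP hsp hno => ?_⟩
  obtain ⟨hinj, hmain⟩ := hF' P hP
  have hE : ∀ (G : MvPolynomial (Fin 3) ℂ) (e : ℕ) (u : Fin n → ℕ), MinusOne P G e u →
      -1 ≤ inter d w e u := by
    rcases hno with ⟨f, hf, hsq⟩ | h
    · intro G e u hG
      by_contra hcon
      push Not at hcon
      have h1 := SH.curve_sq_dvd hinj hG (by omega) hf
      rw [sq] at h1
      exact hG.curve.irreducible.not_isUnit (hsq G h1)
    · exact h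
  obtain ⟨d'', w'', k, G, e, u, d', w', r1, r2, r3, r4, r5, r6, r7, r8, r9⟩ := hmain hsp hE
  have hvd : ∀ (e : ℕ) (v : Fin n → ℕ), virtdim e v = SH.chi e v - 1 := by
    intro e v
    unfold virtdim SH.chi
    ring
  have hdim : dimL P d' w' =
      (Pool.Agent.Y205.MD.crk (Pool.Agent.TH387.SH.TF d') w' : ℤ) - 1 := by
    unfold dimL
    rw [r9]
  have hcrk : Pool.Agent.Y205.MD.crk (Pool.Agent.TH387.SH.TF d') w' ≠ 0 := by
    intro h0
    apply r7
    have h1 := Pool.Agent.H879.Pos.crk_lower d' w'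
    rw [h0, zero_add] at h1
    have h2 : ((d' + 2).choose 2 : ℤ) ≤ ∑ i, (((w' i + 1).choose 2 : ℕ) : ℤ) := by
      exact_mod_cast h1
    rw [hdim, h0]
    unfold virtdim
    rw [max_eq_right (by omega)]
    norm_num
  have hset : ∀ (b : ℕ) (i : Fin n), i ∉ (Finset.univ.filter fun i => b < w' i) →
      w' i ≤ b := by
    intro b i hi
    rw [Finset.mem_filter, not_and] at hi
    have := hi (Finset.mem_univ i)
    omega
  have key : ∀ (b : ℕ) (I : Finset (Fin n)), I.card ≤ 9 → (∀ i, i ∉ I → w' i ≤ b) →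
      _ := fun b I hI hb => H879.Neg.bounds_sp hn r4 hI hb r8 hcrk
  refine ⟨fun μ hμ => ?_, d'', w'', k, G, e, u, d', w', r1, r2, r4, r7, r5, ?_, r3.1, r3.2,
    fun μ hμ => ⟨?_, ?_, fun I hI hIb => ?_⟩, fun I hI => ?_,
    fun hM => r8 (H879.RV.ge_margin hn (margin_iff hM))⟩
  · have h9 : (Finset.univ.filter fun i => μ < w' i).card ≤ 9 := (r3.2 μ).trans hμ
    obtain ⟨k1, k2, k3, k4⟩ := key μ _ h9 (hset μ)
    have h7 := SH.two_chi d' w'
    have k5 := numeric (h := (Pool.Agent.Y205.MD.crk (Pool.Agent.TH387.SH.TF d') w' : ℤ) -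
      SH.chi d' w') k1 k2 k3 k4 (by
        rw [SH.inter_eq, SH.interK_eq]
        omega)
    rw [← r5, hvd, ← r6, hdim]
    constructor
    · have := k5.1
      linarith
    · have := k5.2
      linarith
  · rw [hvd, hvd, r6]
  · have k1 := (key μ _ hμ (hset μ)).1
    calc d' < _ := k1
      _ = 10 ^ 31 * (μ + 1) ^ 14 := by norm_num
  · rw [Set.Finite.mem_toFinset]
    exact ⟨n, w', hn, rfl, r4, hμ, r8⟩
  · have k2 := (key μ I hI hIb).2.1
    calc _ < _ := k2
      _ = 6 * 10 ^ 7 * ((μ : ℤ) + 1) ^ 2 * (d' + μ + 2) := by ring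
  · by_contra hcon
    push Not at hcon
    refine r8 (H879.RV.ge_clean hn r4 hI hcon.1 fun i hi h2 => ?_)
    exact hcon.2 i hi h2

end Pool.Agent.Results.MP_cfebfb_ag.BoundedCounterexamples
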