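import Mathlib
import Pool.Agent.H879.Room.Fin

set_option autoImplicit false

/-!
# Segre's conjecture for multiplicities up to a third of the degree and arbitrary small ones

Let `m i` be the multiplicities at general points of the complex projective plane and `d` a degree.
Let `A` be a set of the points with `3 m i ≤ d` for `i ∈ A` and `∑_A m i ≤ 3 d` (this holds
automatically if `A` has at most nine elements), and let `m i ≤ μ` for `i ∉ A`. There is no other
condition on `A` and no condition on the number of the small points. Let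
`room = (d + 1) (d + 2) - ∑_A m i (m i + 1)`. If
* `2304000000000000 (μ + 1) ^ 4 ≤ d`, or
* `256000000000000 (μ + 1) ^ 4 ≤ room`, or
* `8000000 (μ + 1) (r + μ + 1) ≤ ∑_{i ∉ A} m i + 4 |χ|`, where `room ≤ r ^ 2` and
  `χ = (d + 2).choose 2 - ∑ (m i + 1).choose 2`,
then the linear system `|d H - ∑ m i E i|` is not special, so Segre's conjecture is true for it.
(One open set of points for all these degrees.)

For instance, for every `μ` Segre's conjecture is true in all degrees `d` which are not less than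
`2304000000000000 (μ + 1) ^ 4` for the systems with nine arbitrary multiplicities which are at most
`d / 3` and any number of multiplicities which are at most `μ`.

The proof: in the degeneration of the plane to a tube over an elliptic curve the monomials of the
forms of degree `d` become the lattice points of a strip of any slope `1 / q` with an apex; the
points of `A` are absorbed at one end of the rows. What remains is a convex set of lattice points,
which fits into a square with sides of order `√room` after a shear if `q` is chosen well. Convex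
sets of lattice points are almost exact for small multiplicities, up to an error of the order of
the boundary; this gives exactness, as an error becomes visible if four points are replaced by a
point of twice the multiplicity three times.
-/

namespace Pool.Agent.Results.MP_cfebfb_ag.MultiplicitiesUpToAThird

/-- The vector space of the forms of degree `d` in three variables over `ℂ` with multiplicity at
least `m i` at the point `(P i 0 : P i 1 : 1)` for every `i`. -/
noncomputable def forms {n : ℕ} (P : Fin n → Fin 2 → ℂ) (d : ℕ) (m : Fin n → ℕ) :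
    Submodule ℂ (MvPolynomial (Fin 3) ℂ) :=
  MvPolynomial.homogeneousSubmodule (Fin 3) ℂ d ⊓
    Submodule.restrictScalars ℂ
      (⨅ i : Fin n,
        (Ideal.span
          ({MvPolynomial.X 0 - MvPolynomial.C (P i 0) * MvPolynomial.X 2,
            MvPolynomial.X 1 - MvPolynomial.C (P i 1) * MvPolynomial.X 2} :
            Set (MvPolynomial (Fin 3) ℂ))) ^ (m i))

/-- The projective dimension of the linear system `|d H - m 0 E 0 - ⋯|`. -/
noncomputable def dim {n : ℕ} (P : Fin n → Fin 2 → ℂ) (d : ℕ) (m : Fin n → ℕ) : ℤ :=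
  (Module.finrank ℂ ↥(forms P d m) : ℤ) - 1

/-- The virtual dimension. -/
def vdim {n : ℕ} (d : ℕ) (m : Fin n → ℕ) : ℤ :=
  ((d + 2).choose 2 : ℤ) - 1 - ∑ i, ((m i + 1).choose 2 : ℤ)

/-- `(d + 1) (d + 2) - ∑_A m i (m i + 1)` -/
def room {n : ℕ} (d : ℕ) (m : Fin n → ℕ) (A : Finset (Fin n)) : ℤ :=
  ((d : ℤ) + 1) * (d + 2) - ∑ i ∈ A, (m i : ℤ) * (m i + 1)

/-- The multiplicities `m i`, `i ∈ A`, are at most `d / 3` and their sum is at most `3 d`, the
others are at most `μ`, and the degree, the room, or the sum of the other multiplicities and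
`4 |χ|` is large. -/
def Large {n : ℕ} (d : ℕ) (m : Fin n → ℕ) : Prop :=
  ∃ (A : Finset (Fin n)) (μ : ℕ), (∀ i ∈ A, 3 * m i ≤ d) ∧ ∑ i ∈ A, m i ≤ 3 * d ∧
    (∀ i, i ∉ A → m i ≤ μ) ∧
    (2304000000000000 * ((μ : ℤ) + 1) ^ 4 ≤ d ∨
      256000000000000 * ((μ : ℤ) + 1) ^ 4 ≤ room d m A ∨
      ∃ r : ℕ, room d m A ≤ (r : ℤ) ^ 2 ∧
        8000000 * (((μ : ℤ) + 1) * (r + μ + 1)) ≤
          ∑ i ∈ Finset.univ \ A, (m i : ℤ) + 4 * |vdim d m + 1|)

theorem two_vdim {n : ℕ} (d : ℕ) (m : Fin n → ℕ) :
    ((d : ℤ) + 1) * (d + 2) - ∑ i, (m i : ℤ) * (m i + 1) = 2 * (vdim d m + 1) := by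
  have h : ∀ k : ℕ, 2 * ((k + 1).choose 2 : ℤ) = k * (k + 1) := by
    intro k
    have h1 := Pool.Agent.TH2.NU.two_choose k
    have h2 : ((2 * (k + 1).choose 2 : ℕ) : ℤ) = ((k * (k + 1) : ℕ) : ℤ) := by rw [h1]
    push_cast at h2
    exact h2
  unfold vdim
  have h1 := h (d + 1)
  have h2 : ∑ i, (m i : ℤ) * (m i + 1) = 2 * ∑ i, ((m i + 1).choose 2 : ℤ) := by
    rw [Finset.mul_sum]
    exact Finset.sum_congr rfl fun i _ => (h (m i)).symm
  rw [h2]
  push_cast at h1 ⊢
  have e : ((d : ℤ) + 1) * (d + 2) = (d + 1) * (d + 1 + 1) := by ring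
  rw [e, ← h1]
  ring

theorem crit {n : ℕ} (m : Fin n → ℕ) (d : ℕ) (h : Large d m) :
    ((d + 1) * (d + 2) ≤ ∑ i, m i * (m i + 1) →
      Pool.Agent.TH176.Nag.Emp m (Pool.Agent.TH603.Sur.TZ d)) ∧
      (∑ i, m i * (m i + 1) ≤ (d + 1) * (d + 2) →
        Pool.Agent.TH603.Sur.Sur m (Pool.Agent.TH603.Sur.TZ d)) := by
  obtain ⟨A, μ, h1, h2, h3, h4 | h4 | ⟨r, h4, h5⟩⟩ := h
  · exact H879.Room.large_degree h1 h2 h3 h4
  · exact H879.Room.large_room h1 h2 h3 h4
  · refine H879.Room.main_crit h1 h2 h3 h4 ?_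
    rw [two_vdim, abs_mul, abs_two]
    linarith

theorem result {n : ℕ} (m : Fin n → ℕ) :
    ∃ F : MvPolynomial (Fin n × Fin 2) ℂ, F ≠ 0 ∧
      ∀ P : Fin n → Fin 2 → ℂ,
        MvPolynomial.eval (fun ij : Fin n × Fin 2 => P ij.1 ij.2) F ≠ 0 →
        ∀ d : ℕ, Large d m → dim P d m = max (vdim d m) (-1) := by
  obtain ⟨F, hF, hF'⟩ := H879.Room.open_crit (m := m) (B := fun d => Large d m) (crit m)
  refine ⟨F.map (algebraMap ℚ ℂ), H932R3.map_ne_zero_of hF, fun P hP d hd => ?_⟩
  rw [MvPolynomial.eval_map] at hP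
  have h1 : Module.finrank ℂ ↥(forms P d m) =
      Nat.choose (d + 2) 2 - ∑ i, Nat.choose (m i + 1) 2 := hF' P hP d hd
  have h2 : ∑ i, ((m i + 1).choose 2 : ℤ) = ((∑ i, Nat.choose (m i + 1) 2 : ℕ) : ℤ) := by
    push_cast
    rfl
  unfold dim vdim
  rw [h1, h2]
  omega

end Pool.Agent.Results.MP_cfebfb_ag.MultiplicitiesUpToAThird
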